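import Pool.Agent.H73.Dir1

set_option autoImplicit false

namespace Pool.Agent.Results.MP_81bbc5_al.Directed

/-- `G ⪯ H`: there are a generating tuple `T` of `H` and generating tuples `S n` of `G` such that
the marked groups `(G, S n)` converge to `(H, T)`: for every `R` and all large `n`, a word of length
at most `R` is trivial on `S n` exactly when it is trivial on `T`. -/
def Pre (G H : GrpCat.{0}) : Prop :=
  ∃ (k : ℕ) (T : Fin k → H) (S : ℕ → Fin k → G),
    Subgroup.closure (Set.range T) = ⊤ ∧ (∀ n, Subgroup.closure (Set.range (S n)) = ⊤) ∧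
    ∀ R : ℕ, ∀ᶠ n in Filter.atTop, ∀ w : List (Fin k × Bool), w.length ≤ R →
      (FreeGroup.lift (S n) (FreeGroup.mk w) = 1 ↔ FreeGroup.lift T (FreeGroup.mk w) = 1)

theorem result (V : GrpCat.{0}) (hV : Group.FG V) (hN : Group.IsVirtuallyNilpotent V)
    (F : Set GrpCat.{0}) (hF : F.Finite) (h : ∀ A ∈ F, Relation.EqvGen Pre V A) :
    ∃ U : GrpCat.{0}, Relation.EqvGen Pre V U ∧ ∀ A ∈ F, Pre A U := by
  have e : Pre = fun G H : GrpCat.{0} => H73.Dir.Pr G H := by
    funext G H
    exact propext H73.Dir.pr_iff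
  rw [e] at h ⊢
  exact H73.Dir.directed ⟨hV, hN⟩ F hF h

end Pool.Agent.Results.MP_81bbc5_al.Directed
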